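import Pool.Agent.Helper14.LK.St
import Pool.Agent.Helper14.LK.Basic

/-!
Project LK (MP_58b586_gt), module PTW.
-/

set_option autoImplicit false

namespace Pool.Agent.Helper17.LK

open Pool.Agent.Helper14.LK
open scoped ContDiff Topology
open MeasureTheory Set Filter

private theorem norm_JJ {n : ℕ} (a : WW n) : ‖JJ a‖ = ‖a‖ := by
  rw [JJ_apply, Prod.norm_def, Prod.norm_def]
  simp only [norm_neg]
  exact max_comm _ _

private theorem om_UU {n : ℕ} (T : EE n →L[ℝ] WW n) (u v : EE n) :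
    om (T u + JJ (T v)) (T (-v) + JJ (T u)) =
      ip (T u) (T u) + ip (T v) (T v) - 2 * om (T u) (T v) := by
  rw [map_neg, om_add_left, om_add_right, om_add_right, om_neg_right, om_neg_right, om_JJ_right,
    om_JJ_left, om_JJ_JJ, om_antisymm (T v) (T u)]
  ring

private theorem sq_parts {n : ℕ} (a : WW n) : ‖a‖ ^ 2 ≤ ‖a.1‖ ^ 2 + ‖a.2‖ ^ 2 := by
  have h := norm_le_nm a
  have h2 := nm_sq a
  rw [← h2]
  exact pow_le_pow_left₀ (norm_nonneg _) h 2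

/-- the linear algebra -/
private theorem lin_alg {n : ℕ} (C K δ ρ : ℝ) (hC : 0 < C) (hK : 0 < K) (hδ : 0 ≤ δ) (hρ : 0 < ρ)
    (hsm : (2 * C + 36 * K) * δ ≤ 1 / 2)
    (T : EE n →L[ℝ] WW n) (e : WW n →L[ℝ] WW n)
    (h1 : ∀ u v, |ip (T u) (T v) - ρ ^ 2 * inner ℝ u v| ≤ C * δ * ρ ^ 2 * ‖u‖ * ‖v‖)
    (h2 : ∀ u v, |om (T u) (T v)| ≤ C * δ * ρ ^ 2 * ‖u‖ * ‖v‖)
    (he : ∀ a, ‖e a‖ ≤ K * δ * ρ * ‖a‖) (a : WW n) (ha : a ≠ 0) :
    0 < om (T a.1 + JJ (T a.2) + e a) (T (JJ a).1 + JJ (T (JJ a).2) + e (JJ a)) := by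
  have hCδ : C * δ ≤ 1 := by nlinarith [mul_nonneg hK.le hδ, mul_nonneg hC.le hδ]
  have hKδ : K * δ ≤ 1 := by nlinarith [mul_nonneg hK.le hδ, mul_nonneg hC.le hδ]
  have hCδ0 : 0 ≤ C * δ := mul_nonneg hC.le hδ
  have hKδ0 : 0 ≤ K * δ := mul_nonneg hK.le hδ
  -- norm of `T u`
  have hT : ∀ u, nm (T u) ≤ 2 * ρ * ‖u‖ := by
    intro u
    have h3 := h1 u u
    rw [real_inner_self_eq_norm_sq, ip_self_eq] at h3
    have h4 := (abs_le.1 h3).2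
    apply le_of_sq_le_sq _ (by positivity)
    have h5 : C * δ * ρ ^ 2 * ‖u‖ * ‖u‖ ≤ 1 * (ρ ^ 2 * ‖u‖ * ‖u‖) := by
      have : C * δ * ρ ^ 2 * ‖u‖ * ‖u‖ = (C * δ) * (ρ ^ 2 * ‖u‖ * ‖u‖) := by ring
      rw [this]
      exact mul_le_mul_of_nonneg_right hCδ (by positivity)
    have h6 : 0 ≤ ρ ^ 2 * ‖u‖ ^ 2 := by positivity
    nlinarith
  have hU : ∀ b : WW n, ‖T b.1 + JJ (T b.2)‖ ≤ 4 * ρ * ‖b‖ := by
    intro b
    have h3 := hT b.1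
    have h4 := hT b.2
    have h5 : ‖b.1‖ ≤ ‖b‖ := norm_fst_le b
    have h6 : ‖b.2‖ ≤ ‖b‖ := norm_snd_le b
    calc ‖T b.1 + JJ (T b.2)‖ ≤ ‖T b.1‖ + ‖JJ (T b.2)‖ := norm_add_le _ _
      _ ≤ nm (T b.1) + nm (T b.2) := by
          rw [norm_JJ]
          exact add_le_add (norm_le_nm _) (norm_le_nm _)
      _ ≤ 2 * ρ * ‖b.1‖ + 2 * ρ * ‖b.2‖ := add_le_add h3 h4
      _ ≤ 2 * ρ * ‖b‖ + 2 * ρ * ‖b‖ := by gcongr
      _ = 4 * ρ * ‖b‖ := by ring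
  have hmain : om (T a.1 + JJ (T a.2)) (T (JJ a).1 + JJ (T (JJ a).2)) =
      ip (T a.1) (T a.1) + ip (T a.2) (T a.2) - 2 * om (T a.1) (T a.2) := by
    rw [JJ_apply a]
    exact om_UU T a.1 a.2
  have hu := (abs_le.1 (h1 a.1 a.1)).1
  have hv := (abs_le.1 (h1 a.2 a.2)).1
  have ho := (abs_le.1 (h2 a.1 a.2)).2
  rw [real_inner_self_eq_norm_sq] at hu hv
  set N := ‖a.1‖ ^ 2 + ‖a.2‖ ^ 2 with hN
  have hNa : ‖a‖ ^ 2 ≤ N := sq_parts a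
  have hNpos : 0 < N := lt_of_lt_of_le (by positivity) hNa
  have hNρ : 0 < ρ ^ 2 * N := by positivity
  have hlow : ρ ^ 2 * N - 2 * (C * δ) * (ρ ^ 2 * N) ≤
      om (T a.1 + JJ (T a.2)) (T (JJ a).1 + JJ (T (JJ a).2)) := by
    rw [hmain]
    have h3 : 2 * (C * δ * ρ ^ 2 * ‖a.1‖ * ‖a.2‖) ≤ (C * δ) * (ρ ^ 2 * N) := by
      have h4 : 2 * (‖a.1‖ * ‖a.2‖) ≤ N := by
        rw [hN]; nlinarith [sq_nonneg (‖a.1‖ - ‖a.2‖)]
      have h5 : 0 ≤ C * δ * ρ ^ 2 := by positivity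
      have h6 := mul_le_mul_of_nonneg_left h4 h5
      nlinarith
    have h7 : C * δ * ρ ^ 2 * ‖a.1‖ * ‖a.1‖ + C * δ * ρ ^ 2 * ‖a.2‖ * ‖a.2‖ =
        (C * δ) * (ρ ^ 2 * N) := by
      rw [hN]; ring
    have h8 : ρ ^ 2 * ‖a.1‖ ^ 2 + ρ ^ 2 * ‖a.2‖ ^ 2 = ρ ^ 2 * N := by rw [hN]; ring
    nlinarith
  -- the error terms
  set A := T a.1 + JJ (T a.2) with hA
  set B := T (JJ a).1 + JJ (T (JJ a).2) with hB
  have hAn : ‖A‖ ≤ 4 * ρ * ‖a‖ := hU a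
  have hBn : ‖B‖ ≤ 4 * ρ * ‖a‖ := by
    have := hU (JJ a)
    rwa [norm_JJ] at this
  have hea : ‖e a‖ ≤ K * δ * ρ * ‖a‖ := he a
  have heb : ‖e (JJ a)‖ ≤ K * δ * ρ * ‖a‖ := by
    have := he (JJ a)
    rwa [norm_JJ] at this
  have hexp : om (A + e a) (B + e (JJ a)) =
      om A B + om A (e (JJ a)) + om (e a) B + om (e a) (e (JJ a)) := by
    rw [om_add_left, om_add_right A B, om_add_right (e a) B]; ring
  have E1 : |om A (e (JJ a))| ≤ 16 * (K * δ) * (ρ ^ 2 * ‖a‖ ^ 2) := by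
    refine (abs_om_le_norm _ _).trans ?_
    calc 4 * ‖A‖ * ‖e (JJ a)‖ ≤ 4 * (4 * ρ * ‖a‖) * (K * δ * ρ * ‖a‖) := by gcongr
      _ = 16 * (K * δ) * (ρ ^ 2 * ‖a‖ ^ 2) := by ring
  have E2 : |om (e a) B| ≤ 16 * (K * δ) * (ρ ^ 2 * ‖a‖ ^ 2) := by
    refine (abs_om_le_norm _ _).trans ?_
    calc 4 * ‖e a‖ * ‖B‖ ≤ 4 * (K * δ * ρ * ‖a‖) * (4 * ρ * ‖a‖) := by gcongr
      _ = 16 * (K * δ) * (ρ ^ 2 * ‖a‖ ^ 2) := by ring
  have E3 : |om (e a) (e (JJ a))| ≤ 4 * (K * δ) * (ρ ^ 2 * ‖a‖ ^ 2) := by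
    refine (abs_om_le_norm _ _).trans ?_
    calc 4 * ‖e a‖ * ‖e (JJ a)‖ ≤ 4 * (K * δ * ρ * ‖a‖) * (K * δ * ρ * ‖a‖) := by gcongr
      _ = (K * δ) * (4 * (K * δ) * (ρ ^ 2 * ‖a‖ ^ 2)) := by ring
      _ ≤ 1 * (4 * (K * δ) * (ρ ^ 2 * ‖a‖ ^ 2)) := by
          apply mul_le_mul_of_nonneg_right hKδ
          positivity
      _ = 4 * (K * δ) * (ρ ^ 2 * ‖a‖ ^ 2) := by ring
  have hsum : ρ ^ 2 * ‖a‖ ^ 2 ≤ ρ ^ 2 * N := mul_le_mul_of_nonneg_left hNa (by positivity)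
  have hKs : (K * δ) * (ρ ^ 2 * ‖a‖ ^ 2) ≤ (K * δ) * (ρ ^ 2 * N) :=
    mul_le_mul_of_nonneg_left hsum hKδ0
  have hfin : ((2 * C + 36 * K) * δ) * (ρ ^ 2 * N) ≤ (1 / 2) * (ρ ^ 2 * N) :=
    mul_le_mul_of_nonneg_right hsm hNρ.le
  rw [hexp]
  have e1 := (abs_le.1 E1).1
  have e2 := (abs_le.1 E2).1
  have e3 := (abs_le.1 E3).1
  nlinarith

/-- module PTW of project LK -/
theorem hPTW (hKC : StKC) (hAPX : StAPX) : StPTW := by
  intro n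
  obtain ⟨C₁, hC₁, kadd, ksm, kaff, -, -, kbd⟩ := hKC n
  obtain ⟨C₂, ε₀, hC₂, hε₀, hap⟩ := hAPX n
  set K : ℝ := C₁ ^ 2 * C₂ with hK
  have hKpos : 0 < K := by positivity
  set δ₀ : ℝ := 1 / (2 * (2 * C₂ + 36 * K)) with hδ₀
  have hδ₀pos : 0 < δ₀ := by positivity
  refine ⟨min ε₀ (δ₀ ^ 2), lt_min hε₀ (by positivity), ?_⟩
  intro ι hι hiso hns r w hrw a ha
  set ε : ℝ := min ε₀ (δ₀ ^ 2) with hε
  have hεpos : 0 < ε := lt_min hε₀ (by positivity)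
  set δ : ℝ := Real.sqrt ε with hδ
  have hδ0 : 0 ≤ δ := Real.sqrt_nonneg _
  have hδle : δ ≤ δ₀ := by
    rw [hδ]
    apply Real.sqrt_le_iff.2
    exact ⟨hδ₀pos.le, min_le_right _ _⟩
  have hsm : (2 * C₂ + 36 * K) * δ ≤ 1 / 2 := by
    have h1 : (2 * C₂ + 36 * K) * δ ≤ (2 * C₂ + 36 * K) * δ₀ :=
      mul_le_mul_of_nonneg_left hδle (by positivity)
    have h2 : (2 * C₂ + 36 * K) * δ₀ = 1 / 2 := by
      rw [hδ₀]; field_simp
    linarith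
  set s : ℝ := Real.sqrt (r ^ 2 + ‖w.2‖ ^ 2) with hs
  have hspos : 0 < s := Real.sqrt_pos.2 hrw
  have hs2 : r ^ 2 + ‖w.2‖ ^ 2 = s ^ 2 := by
    rw [hs, Real.sq_sqrt hrw.le]
  obtain ⟨ρ, T, hρ, hT1, hT2, hT3⟩ := hap ε ι hεpos (min_le_left _ _) hι hiso hns w.1 (C₁ * s)
    (by positivity)
  set b : WW n := ι w.1 - T w.1 with hb
  set g : EE n → WW n := fun x => ι x - (b + T x) with hg
  have hgs : ContDiff ℝ ∞ g := hι.sub (contDiff_const.add T.contDiff)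
  have haffs : ContDiff ℝ ∞ (fun x : EE n => b + T x) := contDiff_const.add T.contDiff
  have hdec : (fun x => (fun x : EE n => b + T x) x + g x) = ι := by
    funext x
    simp only [hg]
    abel
  have hSm : ∀ w' : WW n, Sm ι r w' = (b + T w'.1 + JJ (T w'.2)) + Sm g r w' := by
    intro w'
    have h1 := kadd (fun x : EE n => b + T x) g haffs hgs r w'
    rw [hdec, kaff b T r w'] at h1
    exact h1
  have hfun : Sm ι r = fun w' : WW n => (b + T w'.1 + JJ (T w'.2)) + Sm g r w' := funext hSm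
  have hgd : DifferentiableAt ℝ (Sm g r) w := by
    have h1 : ContDiff ℝ ∞ (fun w' : WW n => Function.uncurry (Sm g) (r, w')) :=
      (ksm g hgs).comp (contDiff_const.prodMk contDiff_id)
    exact (h1.differentiable (by simp)).differentiableAt
  set U : WW n →L[ℝ] WW n := T.comp (ContinuousLinearMap.fst ℝ (EE n) (EE n)) +
    (JJ (n := n)).comp (T.comp (ContinuousLinearMap.snd ℝ (EE n) (EE n))) with hU
  have hUd : HasFDerivAt (fun w' : WW n => b + T w'.1 + JJ (T w'.2)) U w := by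
    have h1 : HasFDerivAt (fun w' : WW n => U w') U w := U.hasFDerivAt
    have h2 : (fun w' : WW n => b + T w'.1 + JJ (T w'.2)) = fun w' : WW n => b + U w' := by
      funext w'
      simp only [hU, add_apply, ContinuousLinearMap.comp_apply,
        ContinuousLinearMap.coe_fst', ContinuousLinearMap.coe_snd']
      abel
    rw [h2]
    exact h1.const_add b
  set e : WW n →L[ℝ] WW n := fderiv ℝ (Sm g r) w with he
  have hD : fderiv ℝ (Sm ι r) w = U + e := by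
    rw [hfun]
    exact (hUd.add hgd.hasFDerivAt).fderiv
  have hUa : ∀ a : WW n, U a = T a.1 + JJ (T a.2) := by
    intro a
    simp only [hU, add_apply, ContinuousLinearMap.comp_apply,
        ContinuousLinearMap.coe_fst', ContinuousLinearMap.coe_snd']
  have hea : ∀ a, ‖e a‖ ≤ K * δ * ρ * ‖a‖ := by
    intro a
    have h1 := (kbd g hgs r w s (C₂ * δ * ρ * (C₁ * s)) hspos hs2 (by
      intro x hx
      have h2 := hT1 x hx
      have h3 : g x = ι x - (ι w.1 + T (x - w.1)) := by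
        simp only [hg, hb, map_sub]
        abel
      rw [h3]
      exact h2)).2 a
    refine h1.trans (le_of_eq ?_)
    rw [hK]
    field_simp
  have hmain := lin_alg C₂ K δ ρ hC₂ hKpos hδ0 hρ hsm T e hT2 hT3 hea a ha
  rw [hD]
  simp only [add_apply, hUa]
  exact hmain

end Pool.Agent.Helper17.LK
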